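import Pool.Agent.helper71.CL.Spec

set_option autoImplicit false

open MeasureTheory Set Filter Topology
open scoped ENNReal
open Pool.Agent.helper81.CW

noncomputable section

namespace Pool.Agent.CL

theorem SCA : SCA_stmt := by
  intro n f s hf hs
  have hs' : s⁻¹ ≠ 0 := inv_ne_zero hs.ne'
  have h1 : ∫⁻ x : E n, f (s⁻¹ • x) = ∫⁻ x, f x ∂(Measure.map (fun x : E n => s⁻¹ • x) volume) :=
    (lintegral_map hf (measurable_const_smul s⁻¹)).symm
  rw [h1, Measure.map_addHaar_smul volume hs', lintegral_smul_measure]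
  have h2 : |((s⁻¹) ^ Module.finrank ℝ (E n))⁻¹| = s ^ n := by
    rw [finrank_euclideanSpace, Fintype.card_fin, inv_pow, inv_inv, abs_of_nonneg (by positivity)]
  rw [h2, smul_eq_mul]

end Pool.Agent.CL
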