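import Pool.Agent.helper41.CL.SpecC

/-!
Row XS of project CL (MP_d9d598_co): a path with six vertices and further disjoint pairs.
-/

set_option autoImplicit false

namespace Pool.Agent.helper41.CL

open Finset

theorem XS_range (m : ℕ) :
    range (2 * (m + 1) + 6) = insert (2 * m + 7) (insert (2 * m + 6) (range (2 * m + 6))) := by
  ext x
  simp only [mem_range, mem_insert]
  omega

theorem XS_E (m : ℕ) : ES (m + 1) = insert {2 * m + 7, 2 * m + 6} (ES m) := by
  show insert {2 * m + 6, 2 * m + 7} (ES m) = _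
  rw [pair_comm]

theorem XS_zero : Gr (range 6) (ES 0) ∧ #(ES 0) = 5 ∧
    (∀ c ≤ 2, #(cov (range 6) (ES 0) c) = 0) ∧
    #(cov (range 6) (ES 0) 3) = 4 ∧ ∀ x ∈ range 6, ∃ C ∈ cov (range 6) (ES 0) 3, x ∈ C := by
  refine ⟨?_, ?_, ?_, ?_, ?_⟩
  · unfold Gr ES
    decide
  · decide
  · intro c hc
    rcases (by omega : c = 0 ∨ c = 1 ∨ c = 2) with rfl | rfl | rfl
    · decide +kernel
    · decide +kernel
    · decide +kernel
  · decide +kernel
  · decide +kernel

theorem XS_step (m a : ℕ) (ha : a = 2 * m + 7 ∨ a = 2 * m + 6) (C : Finset ℕ)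
    (hC : C ∈ cov (range (2 * m + 6)) (ES m) (m + 3)) :
    insert a C ∈ cov (range (2 * (m + 1) + 6)) (ES (m + 1)) (m + 1 + 3) := by
  unfold cov at hC ⊢
  rw [mem_filter, mem_powersetCard] at hC ⊢
  obtain ⟨⟨hCV, hCc⟩, hcov⟩ := hC
  have haC : a ∉ C := by
    intro h
    have := mem_range.1 (hCV h)
    omega
  refine ⟨⟨?_, ?_⟩, ?_⟩
  · intro x hx
    rw [mem_insert] at hx
    rw [mem_range]
    rcases hx with rfl | hx
    · omega
    · have := mem_range.1 (hCV hx)
      omega
  · rw [card_insert_of_notMem haC, hCc]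
  · intro e he
    rw [XS_E, mem_insert] at he
    rcases he with rfl | he
    · refine ⟨a, ?_, mem_insert_self a C⟩
      rw [mem_insert, mem_singleton]
      exact ha
    · obtain ⟨x, hx, hxC⟩ := hcov e he
      exact ⟨x, hx, mem_insert_of_mem hxC⟩

theorem XS (h1 : XK_stmt) : XS_stmt := by
  intro m
  induction m with
  | zero =>
    obtain ⟨a1, a2, a3, a4, a5⟩ := XS_zero
    refine ⟨a1, a2, a3, ?_, a5⟩
    show #(cov (range 6) (ES 0) 3) = _
    rw [a4]
    norm_num
  | succ m ih =>
    obtain ⟨hG, hc, h0, hA, hB⟩ := ih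
    obtain ⟨k0, k1, k2⟩ := h1 ℕ (range (2 * m + 6)) (ES m) (2 * m + 7) (2 * m + 6) (by omega)
      (by rw [mem_range]; omega) (by rw [mem_range]; omega) hG
    rw [← XS_range, ← XS_E] at k0 k1
    have k2' : ∀ c : ℕ, #(cov (range (2 * (m + 1) + 6)) (ES (m + 1)) (c + 2)) =
        2 * #(cov (range (2 * m + 6)) (ES m) (c + 1)) + #(cov (range (2 * m + 6)) (ES m) c) := by
      intro c
      rw [XS_range, XS_E]
      exact k2 c
    refine ⟨?_, ?_, ?_, ?_, ?_⟩
    · intro e he
      rw [XS_E, mem_insert] at he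
      rcases he with rfl | he
      · constructor
        · intro x hx
          rw [mem_insert, mem_singleton] at hx
          rw [mem_range]
          omega
        · exact card_pair (by omega)
      · obtain ⟨b1, b2⟩ := hG e he
        refine ⟨fun x hx => ?_, b2⟩
        have := mem_range.1 (b1 hx)
        rw [mem_range]
        omega
    · rw [XS_E, card_insert_of_notMem, hc]
      intro h
      have := mem_range.1 ((hG _ h).1 (mem_insert_self (2 * m + 7) {2 * m + 6}))
      omega
    · intro c hcm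
      rcases Nat.lt_or_ge c 2 with h | h
      · rcases (by omega : c = 0 ∨ c = 1) with rfl | rfl
        · exact k0
        · rw [k1, h0 0 (by omega)]
      · obtain ⟨d, rfl⟩ : ∃ d, c = d + 2 := ⟨c - 2, by omega⟩
        rw [k2', h0 (d + 1) (by omega), h0 d (by omega)]
    · rw [show m + 1 + 3 = (m + 2) + 2 from rfl, k2' (m + 2), hA, h0 (m + 2) (by omega), pow_succ]
      ring
    · intro x hx
      rcases Nat.lt_or_ge x (2 * m + 6) with h | h
      · obtain ⟨C, hC, hxC⟩ := hB x (mem_range.2 h)
        exact ⟨insert (2 * m + 6) C, XS_step m _ (Or.inr rfl) C hC, mem_insert_of_mem hxC⟩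
      · obtain ⟨C, hC, _⟩ := hB 0 (mem_range.2 (by omega))
        have h2 := mem_range.1 hx
        exact ⟨insert x C, XS_step m x (by omega) C hC, mem_insert_self x C⟩

end Pool.Agent.helper41.CL
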