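import Pool.Agent.helper47.CL.SpecC

/-!
Row YX of project CL (MP_d9d598_co): no cover contains the vertex `x`.
-/

set_option autoImplicit false

namespace Pool.Agent.helper41.CL

open Finset

theorem YX_count {α : Type} [DecidableEq α] (C : Finset α) (p a b q : α) (hpa : p ≠ a)
    (hpb : p ≠ b) (hab : a ≠ b) (hqp : q ≠ p) (hqa : q ≠ a) (hqb : q ≠ b) :
    #(C.filter fun v => v ∈ ({p, a, b, q} : Finset α)) =
      (if p ∈ C then 1 else 0) + ((if a ∈ C then 1 else 0) + ((if b ∈ C then 1 else 0) +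
        (if q ∈ C then 1 else 0))) := by
  have h1 : (C.filter fun v => v ∈ ({p, a, b, q} : Finset α)) =
      ({p, a, b, q} : Finset α).filter fun v => v ∈ C := by
    ext v
    simp only [mem_filter]
    exact and_comm
  rw [h1, card_filter, sum_insert, sum_insert, sum_insert, sum_singleton]
  · simp only [mem_singleton]
    exact hqb.symm
  · simp only [mem_insert, mem_singleton, not_or]
    exact ⟨hab, hqa.symm⟩
  · simp only [mem_insert, mem_singleton, not_or]
    exact ⟨hpa, hpb, hqp.symm⟩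

theorem YX_edges {α : Type} [DecidableEq α] (E : Finset (Finset α)) (C : Finset α)
    (p a b q x : α) (hpaE : {p, a} ∈ E) (hpbE : {p, b} ∈ E) (habE : {a, b} ∈ E)
    (hqxE : {q, x} ∈ E) (hpa : p ≠ a)
    (hpb : p ≠ b) (hab : a ≠ b) (hqp : q ≠ p) (hqa : q ≠ a) (hqb : q ≠ b) :
    (if p ∈ C ∧ a ∈ C then 1 else 0) + ((if p ∈ C ∧ b ∈ C then 1 else 0) +
      ((if a ∈ C ∧ b ∈ C then 1 else 0) + (if q ∈ C ∧ x ∈ C then 1 else 0))) ≤
      #(E.filter fun e => e ⊆ C) := by
  have h1 : (({{p, a}, {p, b}, {a, b}, {q, x}} : Finset (Finset α)).filter fun e => e ⊆ C) ⊆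
      E.filter fun e => e ⊆ C := by
    intro e he
    rw [mem_filter] at he ⊢
    refine ⟨?_, he.2⟩
    have h2 := he.1
    simp only [mem_insert, mem_singleton] at h2
    rcases h2 with h2 | h2 | h2 | h2 <;> rw [h2] <;> assumption
  have h3 := card_le_card h1
  rw [card_filter, sum_insert, sum_insert, sum_insert, sum_singleton] at h3
  · simp only [insert_subset_iff, singleton_subset_iff] at h3
    exact h3
  · simp only [mem_singleton]
    intro h4
    have h5 : q ∈ ({a, b} : Finset α) := by rw [h4]; simp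
    simp only [mem_insert, mem_singleton] at h5
    exact h5.elim hqa hqb
  · simp only [mem_insert, mem_singleton, not_or]
    refine ⟨?_, ?_⟩
    · intro h4
      have h5 : p ∈ ({a, b} : Finset α) := by rw [← h4]; simp
      simp only [mem_insert, mem_singleton] at h5
      exact h5.elim hpa hpb
    · intro h4
      have h5 : q ∈ ({p, b} : Finset α) := by rw [h4]; simp
      simp only [mem_insert, mem_singleton] at h5
      exact h5.elim hqp hqb
  · simp only [mem_insert, mem_singleton, not_or]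
    refine ⟨?_, ?_, ?_⟩
    · intro h4
      have h5 : a ∈ ({p, b} : Finset α) := by rw [← h4]; simp
      simp only [mem_insert, mem_singleton] at h5
      exact h5.elim (fun h => hpa h.symm) hab
    · intro h4
      have h5 : p ∈ ({a, b} : Finset α) := by rw [← h4]; simp
      simp only [mem_insert, mem_singleton] at h5
      exact h5.elim hpa hpb
    · intro h4
      have h5 : q ∈ ({p, a} : Finset α) := by rw [h4]; simp
      simp only [mem_insert, mem_singleton] at h5
      exact h5.elim hqp hqa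

theorem YX (h1 : DC_stmt) : YX_stmt := by
  intro α _ V E c p a b q x hG hE hpaE hpbE habE hqxE hpa hpb hab hqx hq hx hd2 hd1 C hC hxC
  have hq' : q ≠ p ∧ q ≠ a ∧ q ≠ b := by
    simpa only [mem_insert, mem_singleton, not_or] using hq
  obtain ⟨hqp, hqa, hqb⟩ := hq'
  unfold cov at hC
  rw [mem_filter, mem_powersetCard] at hC
  obtain ⟨⟨hCV, hCc⟩, hcov⟩ := hC
  have h2 := h1 α V E C hG hcov
  have h3 : ∑ v ∈ C, #(inc E v) ≤
      ∑ v ∈ C, (1 + if v ∈ ({p, a, b, q} : Finset α) then 1 else 0) := by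
    apply sum_le_sum
    intro v _
    by_cases hv : v ∈ ({p, a, b, q} : Finset α)
    · rw [if_pos hv]
      exact hd2 v
    · rw [if_neg hv]
      exact hd1 v hv
  rw [sum_add_distrib, sum_const, smul_eq_mul, mul_one, ← card_filter,
    YX_count C p a b q hpa hpb hab hqp hqa hqb, hCc] at h3
  have h4 := YX_edges E C p a b q x hpaE hpbE habE hqxE hpa hpb hab hqp hqa hqb
  have c1 : p ∈ C ∨ a ∈ C := by
    obtain ⟨y, hy, hyC⟩ := hcov _ hpaE
    simp only [mem_insert, mem_singleton] at hy
    rcases hy with rfl | rfl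
    · exact Or.inl hyC
    · exact Or.inr hyC
  have c2 : p ∈ C ∨ b ∈ C := by
    obtain ⟨y, hy, hyC⟩ := hcov _ hpbE
    simp only [mem_insert, mem_singleton] at hy
    rcases hy with rfl | rfl
    · exact Or.inl hyC
    · exact Or.inr hyC
  have c3 : a ∈ C ∨ b ∈ C := by
    obtain ⟨y, hy, hyC⟩ := hcov _ habE
    simp only [mem_insert, mem_singleton] at hy
    rcases hy with rfl | rfl
    · exact Or.inl hyC
    · exact Or.inr hyC
  rw [hE] at h2
  obtain ⟨i, hi⟩ : ∃ i, #(E.filter fun e => e ⊆ C) = i := ⟨_, rfl⟩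
  rw [hi] at h2 h4
  by_cases e1 : p ∈ C <;> by_cases e2 : a ∈ C <;> by_cases e3 : b ∈ C <;> by_cases e4 : q ∈ C <;>
    simp [e1, e2, e3, e4, hxC] at h3 h4 c1 c2 c3 <;> omega

end Pool.Agent.helper41.CL
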